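import Pool.Agent.H67.BB.Sums

set_option autoImplicit false

/-!
# The zeros of all Dirichlet L-functions do not imply bounded gaps, let alone twin primes

Let `f(p)` tend to infinity, as slowly as one wishes.  Every prime `p` is moved by at most `f(p)`, injectively, such
that for each `q` the residue modulo `q` changes for finitely many primes only.  The new primes can be chosen such
that the gaps between them tend to infinity (the theorem of Zhang, Maynard and Tao is false for them, there is no
twin pair beyond a certain point, and the assertion of the problem fails for all large `n`), although for every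
Dirichlet character the Euler product over the new primes is the Dirichlet L-function times a factor which is
holomorphic and without zeros in the half plane `Re s > 0`: all zeros and poles with `Re s > 0` are the same.

Proof.  The primes with `X j ≤ p < X (j + 1)` are moved into the Bohr set of the integers `m` for which the
fractional part of `m √2` is less than `1 / (j + 1)`, to composite numbers in the same class modulo `j!`; there
is room for this in all intervals of a bounded length, by the inequality of Brun and Titchmarsh and Hall's
theorem.  The distances between the elements of this Bohr set tend to infinity with `j`.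
-/

namespace Pool.Agent.Results.MP_b51559_nt.ZerosAndBoundedGaps

open Filter Topology

/-- Let `f ≥ 0` tend to infinity.  There is a map `φ` on the primes with values `≥ 2` such that
(1) `φ` is injective on the primes, `|φ p - p| ≤ f p` for all primes `p`, and for every `q ≥ 1`: `φ p ≡ p` modulo `q`
for all but finitely many primes `p`;
(2) for every Dirichlet character `χ` the Euler product over the `φ p` is `L(s, χ) G(s)` for `Re s > 1`, where `G` is
holomorphic and without zeros in `Re s > 0`;
(3) for every `L` only finitely many elements `a` of the set of the values `φ p` are followed by another element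
`b ≤ a + L`; in particular only finitely many `a` are such that `a` and `a + 2` are in this set. -/
theorem result (f : ℕ → ℝ) (hf0 : ∀ n, 0 ≤ f n) (hf : Tendsto f atTop atTop) : ∃ φ : ℕ → ℕ,
    (Set.InjOn φ {p | p.Prime} ∧ (∀ p : ℕ, p.Prime → 2 ≤ φ p) ∧ (∀ p : ℕ, p.Prime → |(φ p : ℝ) - p| ≤ f p) ∧
      ∀ q : ℕ, 0 < q → {p : ℕ | p.Prime ∧ ¬ φ p ≡ p [MOD q]}.Finite) ∧
    (∀ (q : ℕ) [NeZero q] (χ : DirichletCharacter ℂ q), ∃ G : ℂ → ℂ,
      DifferentiableOn ℂ G {s : ℂ | 0 < s.re} ∧ (∀ s : ℂ, 0 < s.re → G s ≠ 0) ∧
      ∀ s : ℂ, 1 < s.re → HasProd (fun p : Nat.Primes => (1 - χ (φ p) * (φ p : ℂ) ^ (-s))⁻¹)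
        (χ.LFunction s * G s)) ∧
    ∀ L : ℕ, {a : ℕ | a ∈ φ '' {p | p.Prime} ∧ ∃ b ∈ φ '' {p | p.Prime}, a < b ∧ b ≤ a + L}.Finite := by
  obtain ⟨φ, X, hg, O⟩ := Pool.Agent.H67.BB.template Pool.Agent.H67.BB.TT Pool.Agent.H67.BB.TT_syn f hf0 hf
    (fun j x => 3 ^ (j * x))
  exact ⟨φ, ⟨O.inj, O.move.two, O.dispf, O.move.fin⟩, fun q _ χ => Pool.Agent.H67.BB.euler2 O.move q χ,
    fun L => O.gaps L⟩

end Pool.Agent.Results.MP_b51559_nt.ZerosAndBoundedGaps
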